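import Mathlib

set_option autoImplicit false

namespace Pool.Agent.K6.H23.EG

open Finset

/-- the sum over all `j` in `[1, M]` -/
theorem full_sum (n M : ℕ) :
    ∑ k ∈ Ioc n (n + M), (k : ℚ) / 2 ^ k = (n + 2) / 2 ^ n - (n + M + 2) / 2 ^ (n + M) := by
  induction M with
  | zero => simp
  | succ M ih =>
    rw [← add_assoc, Finset.sum_Ioc_succ_top (by omega), ih]
    push_cast
    rw [pow_succ]
    field_simp
    ring

/-- the terms left out -/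
theorem out_sum (n M : ℕ) (E : Finset ℕ) (hE : ∀ e ∈ E, 1 ≤ e ∧ e < M) :
    ∑ k ∈ E.image (fun e => n + M - e), (k : ℚ) / 2 ^ k =
      (((n + M : ℕ) : ℚ) * (∑ e ∈ E, (2 : ℚ) ^ e) - ∑ e ∈ E, (e : ℚ) * 2 ^ e) / 2 ^ (n + M) := by
  rw [Finset.sum_image]
  · rw [Finset.mul_sum, ← Finset.sum_sub_distrib, Finset.sum_div]
    refine Finset.sum_congr rfl fun e he => ?_
    have h1 := hE e he
    have h2 : (2 : ℚ) ^ (n + M) = 2 ^ (n + M - e) * 2 ^ e := by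
      rw [← pow_add]; congr 1; omega
    rw [h2, Nat.cast_sub (by omega)]
    field_simp
  · intro a ha b hb hab
    have h1 := hE a ha
    have h2 := hE b hb
    simp only at hab
    omega

theorem image_subset (n M : ℕ) (E : Finset ℕ) (hE : ∀ e ∈ E, 1 ≤ e ∧ e < M) :
    E.image (fun e => n + M - e) ⊆ Ioc n (n + M) := by
  intro k hk
  rw [Finset.mem_image] at hk
  obtain ⟨e, he, rfl⟩ := hk
  have h1 := hE e he
  rw [Finset.mem_Ioc]
  omega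

/-- the equation in integers -/
theorem equation_iff (n M : ℕ) (E : Finset ℕ) (hE : ∀ e ∈ E, 1 ≤ e ∧ e < M) :
    (n : ℚ) / 2 ^ n = ∑ k ∈ Ioc n (n + M) \ E.image (fun e => n + M - e), (k : ℚ) / 2 ^ k ↔
      (n + M) * (1 + ∑ e ∈ E, 2 ^ e) + 2 = 2 ^ (M + 1) + ∑ e ∈ E, e * 2 ^ e := by
  have h1 := Finset.sum_sdiff (image_subset n M E hE) (f := fun k : ℕ => (k : ℚ) / 2 ^ k)
  rw [full_sum, out_sum n M E hE] at h1
  have h2 : ∑ k ∈ Ioc n (n + M) \ E.image (fun e => n + M - e), (k : ℚ) / 2 ^ k =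
      (n + 2) / 2 ^ n - (n + M + 2) / 2 ^ (n + M) -
      (((n + M : ℕ) : ℚ) * (∑ e ∈ E, (2 : ℚ) ^ e) - ∑ e ∈ E, (e : ℚ) * 2 ^ e) / 2 ^ (n + M) := by
    linarith
  rw [h2]
  have h3 : ((n + M) * (1 + ∑ e ∈ E, 2 ^ e) + 2 = 2 ^ (M + 1) + ∑ e ∈ E, e * 2 ^ e) ↔
      ((((n + M) * (1 + ∑ e ∈ E, 2 ^ e) + 2 : ℕ) : ℚ) =
        ((2 ^ (M + 1) + ∑ e ∈ E, e * 2 ^ e : ℕ) : ℚ)) := Nat.cast_inj.symm
  rw [h3]
  push_cast
  have h4 : (2 : ℚ) ^ (n + M) = 2 ^ n * 2 ^ M := pow_add _ _ _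
  have h5 : (0 : ℚ) < 2 ^ n := by positivity
  have h6 : (0 : ℚ) < 2 ^ M := by positivity
  rw [h4, pow_succ]
  constructor
  · intro h
    field_simp at h
    linarith
  · intro h
    field_simp
    linarith

end Pool.Agent.K6.H23.EG
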