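import Pool.Agent.K6.H23.EG.Fam

set_option autoImplicit false

namespace Pool.Agent.K6.H23.EG

open Finset N331b93cf

def DD (E : Finset ℕ) : ℕ := 1 + ∑ e ∈ E, 2 ^ e

def SS (E : Finset ℕ) : ℕ := ∑ e ∈ E, e * 2 ^ e

theorem grow (B D x : ℕ) (hx : 2 * (B + D + 10) ≤ x) : (B + x + 1) * D + 2 ≤ 2 ^ x := by
  have h1 : x ^ 2 ≤ 2 ^ x := by
    have h4 : 4 ≤ x := by omega
    clear hx
    induction x, h4 using Nat.le_induction with
    | base => norm_num
    | succ x hx ih => rw [pow_succ 2 x]; nlinarith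
  nlinarith

theorem infinite_family (E : Finset ℕ) (hE : ∀ e ∈ E, 1 ≤ e) (j : ℕ)
    (h : ((DD E : ℕ) : ℤ) ∣ 2 ^ j - 2 + (SS E : ℤ)) :
    {n : ℕ | 2 ≤ n ∧ ∃ M : ℕ, (∀ e ∈ E, 1 ≤ e ∧ e < M) ∧
      (n + M) * DD E + 2 = 2 ^ (M + 1) + SS E}.Infinite := by
  have hodd : DD E % 2 = 1 := by
    have : 2 ∣ ∑ e ∈ E, 2 ^ e := Finset.dvd_sum fun e he => dvd_pow_self 2 (by have := hE e he; omega)
    unfold DD
    omega
  have hD1 : 1 ≤ DD E := by unfold DD; omega
  have hco : Nat.Coprime 2 (DD E) := by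
    rw [Nat.coprime_two_left, Nat.odd_iff]; exact hodd
  have hphi : DD E ∣ 2 ^ (Nat.totient (DD E)) - 1 := by
    have := Nat.ModEq.pow_totient hco
    exact (Nat.modEq_iff_dvd' Nat.one_le_two_pow).1 this.symm
  have hpos : 1 ≤ Nat.totient (DD E) := Nat.totient_pos.2 hD1
  set o := Nat.totient (DD E) with ho
  have hm : DD E ∣ 2 ^ (j + o) + SS E - 2 := by
    have hp : 2 ≤ 2 ^ (j + o) + SS E := by
      have : 2 ^ 1 ≤ 2 ^ (j + o) := Nat.pow_le_pow_right (by norm_num) (by omega)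
      omega
    rw [← Int.natCast_dvd_natCast, Nat.cast_sub hp]
    have h3 := Int.natCast_dvd_natCast.2 hphi
    rw [Nat.cast_sub Nat.one_le_two_pow] at h3
    push_cast at h3 ⊢
    have : (2 : ℤ) ^ (j + o) + (SS E : ℤ) - 2 = (2 ^ j - 2 + SS E) + 2 ^ j * (2 ^ o - 1) := by
      rw [pow_add]; ring
    rw [this]
    exact dvd_add h (h3.mul_left _)
  rw [Set.infinite_iff_exists_gt]
  intro B
  set t := 2 * (B + DD E + 10) + (E.sup id + 2) with ht
  have hle : t ≤ o * t := Nat.le_mul_of_pos_left _ hpos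
  obtain ⟨M, hM⟩ : ∃ M, j + o + o * t = M + 1 := ⟨j + o + o * t - 1, by omega⟩
  have hdvd := dvd_prog (t := t) hm hphi (by omega)
  rw [hM] at hdvd
  have hgrow := grow B (DD E) (M + 1) (by omega)
  have hgrow' : (M + 2) * DD E + 2 ≤ 2 ^ (M + 1) :=
    le_trans (Nat.add_le_add_right (Nat.mul_le_mul_right _ (by omega)) 2) hgrow
  obtain ⟨n, hn2, hn⟩ := exists_n hD1 hdvd hgrow'
  refine ⟨n, ⟨hn2, M, fun e he => ⟨hE e he, ?_⟩, hn⟩, ?_⟩
  · have : e ≤ E.sup id := Finset.le_sup (f := id) he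
    omega
  · by_contra hc
    have : (n + M) * DD E ≤ (B + (M + 1)) * DD E := Nat.mul_le_mul_right _ (by omega)
    have h3 : (B + (M + 1) + 1) * DD E = (B + (M + 1)) * DD E + DD E := by ring
    omega

def EE : Fin 12 → Finset ℕ := ![∅, {2}, {3}, {1, 3}, {2, 3}, {1, 4}, {3, 4}, {1, 3, 4}, {6}, {3, 6},
  {3, 4, 6}, {1, 3, 4, 6}]
def mm : Fin 12 → ℕ := ![41, 42, 41, 46, 44, 51, 46, 43, 51, 41, 50, 44]
def oo : Fin 12 → ℕ := ![1, 4, 6, 10, 12, 18, 20, 18, 12, 9, 11, 12]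

theorem data : ∀ i : Fin 12, DD (EE i) ≤ 127 ∧ DD (EE i) % 2 = 1 ∧ SS (EE i) ≤ 1000 ∧
    SS (EE i) ≤ 40 * DD (EE i) ∧ DD (EE i) ∣ 2 ^ mm i + SS (EE i) - 2 ∧
    DD (EE i) ∣ 2 ^ oo i - 1 ∧ 41 ≤ mm i ∧ mm i ≤ 51 ∧ 1 ≤ oo i ∧
    (∀ e ∈ EE i, 1 ≤ e ∧ e < 40) := by decide +kernel

theorem data_inj : ∀ i j : Fin 12, DD (EE i) = DD (EE j) → i = j := by decide +kernel

theorem exists_nn (i : Fin 12) (t : ℕ) : ∃ n M, 2 ≤ n ∧ M + 1 = mm i + oo i * t ∧
    (n + M) * DD (EE i) + 2 = 2 ^ (M + 1) + SS (EE i) := by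
  obtain ⟨h1, h2, h3, h4, h5, h6, h7, h8, h9, h10⟩ := data i
  obtain ⟨M, hM⟩ : ∃ M, mm i + oo i * t = M + 1 := ⟨mm i + oo i * t - 1, by omega⟩
  have hdvd := dvd_prog (t := t) h5 h6 (by omega)
  rw [hM] at hdvd
  have hb := pow_big M (by omega)
  obtain ⟨n, hn, hn'⟩ := exists_n (by omega) hdvd (le_trans (by
    have : (M + 2) * DD (EE i) ≤ (M + 2) * 127 := Nat.mul_le_mul_left _ h1
    omega : _ ≤ 10 ^ 7 * M + 10 ^ 9) hb)
  exact ⟨n, M, hn, hM.symm, hn'⟩

theorem floor_bound (L o : ℕ) (ho : 0 < o) : L + 1 ≤ o * (L / o) + o := by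
  have h1 := Nat.div_add_mod L o
  have h2 := Nat.mod_lt L ho
  omega

theorem sum_bound (K : ℕ) (hK : 1500 ≤ K) : 2 * (K + 1) ≤ ∑ a : Fin 12, (K - 51) / oo a := by
  obtain ⟨L, rfl⟩ := Nat.exists_eq_add_of_le (show 51 ≤ K by omega)
  rw [Nat.add_sub_cancel_left]
  have h1 := floor_bound L 1 (by norm_num)
  have h4 := floor_bound L 4 (by norm_num)
  have h6 := floor_bound L 6 (by norm_num)
  have h10 := floor_bound L 10 (by norm_num)
  have h12 := floor_bound L 12 (by norm_num)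
  have h18 := floor_bound L 18 (by norm_num)
  have h20 := floor_bound L 20 (by norm_num)
  have h9 := floor_bound L 9 (by norm_num)
  have h11 := floor_bound L 11 (by norm_num)
  have hs : (∑ a : Fin 12, L / oo a) = L / 1 + (L / 4 + (L / 6 + (L / 10 + (L / 12 + (L / 18 +
      (L / 20 + (L / 18 + (L / 12 + (L / 9 + (L / 11 + (L / 12 + 0))))))))))) := by
    simp only [Fin.sum_univ_succ, Fin.sum_univ_zero, oo]
    rfl
  rw [hs]
  generalize L / 1 = q1 at *
  generalize L / 4 = q4 at *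
  generalize L / 6 = q6 at *
  generalize L / 10 = q10 at *
  generalize L / 12 = q12 at *
  generalize L / 18 = q18 at *
  generalize L / 20 = q20 at *
  generalize L / 9 = q9 at *
  generalize L / 11 = q11 at *
  have hL : 1449 ≤ L := by omega
  clear hs hK
  zify at *
  linarith

theorem count_nat (K X : ℕ) (hK : 1500 ≤ K) (hX : 2 ^ K ≤ X) :
    2 * (K + 1) ≤ {n : ℕ | 1 ≤ n ∧ n ≤ X ∧ Erdos261Prop n}.ncard := by
  classical
  choose g M hg hM hgM using exists_nn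
  set I := (Finset.univ : Finset (Fin 12)).sigma (fun i => Finset.range ((K - 51) / oo i)) with hI
  have hcard : 2 * (K + 1) ≤ I.card := by
    rw [hI, Finset.card_sigma]
    simp only [Finset.card_range]
    exact sum_bound K hK
  have hfin : {n : ℕ | 1 ≤ n ∧ n ≤ X ∧ Erdos261Prop n}.Finite :=
    (Set.finite_Icc 1 X).subset fun n hn => ⟨hn.1, hn.2.1⟩
  refine hcard.trans ?_
  rw [← Set.ncard_coe_finset]
  refine Set.ncard_le_ncard_of_injOn (fun p => g p.1 p.2) ?_ ?_ hfin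
  · rintro ⟨i, t⟩ hp
    rw [Finset.mem_coe, hI, Finset.mem_sigma, Finset.mem_range] at hp
    obtain ⟨h1, h2, h3, h4, h5, h6, h7, h8, h9, h10⟩ := data i
    have ht := hp.2
    simp only at ht ⊢
    have hM' := hM i t
    have hot : oo i * t + oo i ≤ K - 51 := by
      have : (t + 1) * oo i ≤ K - 51 := (Nat.le_div_iff_mul_le h9).1 ht
      rw [← Nat.mul_succ, Nat.succ_eq_add_one, mul_comm]; exact this
    have hMK : M i t + 1 ≤ K := by omega
    have h40 : 40 ≤ M i t := by omega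
    refine ⟨by have := hg i t; omega, ?_, ?_⟩
    · refine le_trans ?_ ((Nat.pow_le_pow_right (by norm_num) hMK).trans hX)
      have e := hgM i t
      have h11 : 40 * DD (EE i) ≤ M i t * DD (EE i) := Nat.mul_le_mul_right _ h40
      have h12 : g i t * 1 ≤ g i t * DD (EE i) := Nat.mul_le_mul_left _ (by omega)
      rw [Nat.add_mul] at e
      omega
    · refine prop_of_eq (M := M i t) (EE i) (hg i t) (fun e he => ?_) (hgM i t)
      have := h10 e he
      omega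
  · rintro ⟨i, t⟩ - ⟨i', t'⟩ - heq
    simp only at heq
    have key : ∀ (i i' : Fin 12) (t t' : ℕ), g i t = g i' t' → M i t ≤ M i' t' →
        (⟨i, t⟩ : (_ : Fin 12) × ℕ) = ⟨i', t'⟩ := by
      intro i i' t t' heq hle
      obtain ⟨h1, h2, h3, h4, h5, h6, h7, h8, h9, h10⟩ := data i
      obtain ⟨h1', h2', h3', h4', h5', h6', h7', h8', h9', h10'⟩ := data i'
      have e1 := hgM i t
      have e2 := hgM i' t'
      rw [← heq] at e2
      have hm1 := hM i t
      have := inj_main hle (by omega) (by omega) h1 (by omega) h1' h2' h3 h3' e1 e2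
      obtain rfl := data_inj _ _ this.2
      have hm2 := hM i t'
      have h13 : oo i * t = oo i * t' := by omega
      have : t = t' := Nat.eq_of_mul_eq_mul_left h9 h13
      rw [this]
    rcases le_total (M i t) (M i' t') with hle | hle
    · exact key i i' t t' heq hle
    · exact (key i' i t' t heq.symm hle).symm

theorem count_real : ∃ X₀ : ℕ, ∀ X ≥ X₀,
    2 * Real.logb 2 X ≤ ({n : ℕ | 1 ≤ n ∧ n ≤ X ∧ Erdos261Prop n}.ncard : ℝ) := by
  refine ⟨2 ^ 1500, fun X hX => ?_⟩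
  have hX0 : 0 < X := lt_of_lt_of_le (by positivity) hX
  have h1 : 1500 ≤ Nat.log 2 X := Nat.le_log_of_pow_le (by norm_num) hX
  have h2 := count_nat (Nat.log 2 X) X h1 (Nat.pow_log_le_self 2 hX0.ne')
  have h3 : Real.logb 2 X ≤ Nat.log 2 X + 1 := by
    have h4 : X < 2 ^ (Nat.log 2 X + 1) := Nat.lt_pow_succ_log_self (by norm_num) X
    have h5 : Real.logb 2 X ≤ Real.logb 2 ((2 : ℝ) ^ (Nat.log 2 X + 1)) :=
      Real.logb_le_logb_of_le (by norm_num) (by exact_mod_cast hX0) (by exact_mod_cast h4.le)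
    rwa [Real.logb_pow, Real.logb_self_eq_one (by norm_num), mul_one, Nat.cast_add,
      Nat.cast_one] at h5
  have h6 : (2 * ((Nat.log 2 X : ℝ) + 1)) ≤
      ({n : ℕ | 1 ≤ n ∧ n ≤ X ∧ Erdos261Prop n}.ncard : ℝ) := by exact_mod_cast h2
  linarith

end Pool.Agent.K6.H23.EG
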