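import Pool.Agent.K6.H23.EG.Main

set_option autoImplicit false

namespace Pool.Agent.K6.H23.EG

open Finset N331b93cf

/-- divisibility propagates along the progression of the exponents -/
theorem dvd_prog {D S m o t : ℕ} (h1 : D ∣ 2 ^ m + S - 2) (h2 : D ∣ 2 ^ o - 1) (hm : 1 ≤ m) :
    D ∣ 2 ^ (m + o * t) + S - 2 := by
  have h3 : (2 : ℤ) ^ o ≡ 1 [ZMOD D] := by
    refine (Int.modEq_iff_dvd.2 ?_).symm
    have : (1 : ℕ) ≤ 2 ^ o := Nat.one_le_two_pow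
    have h4 := Int.natCast_dvd_natCast.2 h2
    rw [Nat.cast_sub this] at h4
    exact_mod_cast h4
  have h5 : (2 : ℤ) ^ (m + o * t) ≡ 2 ^ m [ZMOD D] := by
    rw [pow_add, pow_mul]
    simpa using (Int.ModEq.refl ((2 : ℤ) ^ m)).mul (h3.pow t)
  have hp : ∀ k : ℕ, 1 ≤ k → 2 ≤ 2 ^ k + S := fun k hk => by
    have : 2 ^ 1 ≤ 2 ^ k := Nat.pow_le_pow_right (by norm_num) hk
    omega
  rw [← Int.natCast_dvd_natCast, Nat.cast_sub (hp _ (by omega))]
  push_cast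
  have h6 : (2 : ℤ) ^ (m + o * t) + S - 2 ≡ 2 ^ m + S - 2 [ZMOD D] :=
    (h5.add_right _).sub_right _
  have h7 := Int.natCast_dvd_natCast.2 h1
  rw [Nat.cast_sub (hp m hm)] at h7
  push_cast at h7
  exact (Int.ModEq.dvd_iff h6).2 h7

theorem exists_n {D S M : ℕ} (hD : 1 ≤ D) (h : D ∣ 2 ^ (M + 1) + S - 2)
    (hM : (M + 2) * D + 2 ≤ 2 ^ (M + 1)) :
    ∃ n, 2 ≤ n ∧ (n + M) * D + 2 = 2 ^ (M + 1) + S := by
  obtain ⟨N, hN⟩ := h
  have h1 : N * D + 2 = 2 ^ (M + 1) + S := by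
    have : 2 ≤ 2 ^ (M + 1) + S := by
      have : 2 ^ 1 ≤ 2 ^ (M + 1) := Nat.pow_le_pow_right (by norm_num) (by omega)
      omega
    rw [mul_comm]; omega
  have h2 : M + 2 ≤ N := by
    have : (M + 2) * D ≤ N * D := by omega
    exact Nat.le_of_mul_le_mul_right this hD
  refine ⟨N - M, by omega, ?_⟩
  rw [Nat.sub_add_cancel (by omega)]
  exact h1

theorem inj_core (n D D' S S' M Δ K y : ℤ) (hK1 : 1 ≤ K) (hK : K ≤ 256) (hD1 : 1 ≤ D)
    (hD : D ≤ 127) (hD1' : 1 ≤ D') (hD' : D' ≤ 127) (hS0 : 0 ≤ S) (hS : S ≤ 1000)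
    (hS0' : 0 ≤ S') (hS' : S' ≤ 1000) (hM : 0 ≤ M) (hΔ0 : 0 ≤ Δ) (hΔ : Δ ≤ 8) (hn : 0 ≤ n)
    (e1 : (n + M) * D + 2 = y + S) (e2 : (n + M + Δ) * D' + 2 = K * y + S')
    (hy : 10 ^ 7 * M + 10 ^ 9 ≤ y) (ha : D' - K * D ≠ 0) : False := by
  have h1 : n * (D' - K * D) = S' - 2 - (M + Δ) * D' - K * S + 2 * K + K * (M * D) := by
    linear_combination e2 - K * e1
  have b1 : 0 ≤ K * S := by positivity
  have b2 : K * S ≤ 256 * 1000 := mul_le_mul hK hS hS0 (by norm_num)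
  have b3 : 0 ≤ M * D := by positivity
  have b4 : M * D ≤ M * 127 := mul_le_mul_of_nonneg_left hD hM
  have b5 : 0 ≤ K * (M * D) := by positivity
  have b6 : K * (M * D) ≤ 256 * (M * 127) := mul_le_mul hK b4 b3 (by norm_num)
  have b7 : 0 ≤ (M + Δ) * D' := by positivity
  have b8 : (M + Δ) * D' ≤ (M + Δ) * 127 := mul_le_mul_of_nonneg_left hD' (by positivity)
  have b9 : (n + M) * D ≤ (n + M) * 127 := mul_le_mul_of_nonneg_left hD (by positivity)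
  rcases lt_or_gt_of_ne ha with h2 | h2
  · have h3 : n * (D' - K * D) ≤ n * (-1) := mul_le_mul_of_nonneg_left (by omega) hn
    linarith
  · have h3 : n * 1 ≤ n * (D' - K * D) := mul_le_mul_of_nonneg_left (by omega) hn
    linarith

theorem pow_big (M : ℕ) (hM : 40 ≤ M) : 10 ^ 7 * M + 10 ^ 9 ≤ 2 ^ (M + 1) := by
  induction M, hM using Nat.le_induction with
  | base => norm_num
  | succ M hM ih => rw [pow_succ]; omega

theorem inj_main {n D D' S S' M M' : ℕ} (hle : M ≤ M') (hM : 40 ≤ M) (hD1 : 1 ≤ D) (hD : D ≤ 127)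
    (hD1' : 1 ≤ D') (hD' : D' ≤ 127) (hodd : D' % 2 = 1) (hS : S ≤ 1000) (hS' : S' ≤ 1000)
    (e1 : (n + M) * D + 2 = 2 ^ (M + 1) + S) (e2 : (n + M') * D' + 2 = 2 ^ (M' + 1) + S') :
    M = M' ∧ D = D' := by
  obtain ⟨Δ, rfl⟩ := Nat.exists_eq_add_of_le hle
  have hy := pow_big M hM
  have hpow : 2 ^ (M + Δ + 1) = 2 ^ Δ * 2 ^ (M + 1) := by rw [← pow_add]; congr 1; omega
  rw [hpow] at e2
  set y := 2 ^ (M + 1) with hydef
  have hΔ2 : Δ < 2 ^ Δ := Nat.lt_two_pow_self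
  -- bound for `Δ`
  have hn : n ≤ y + S := by
    have : n * 1 ≤ (n + M) * D := Nat.mul_le_mul (by omega) hD1
    omega
  have hΔ : Δ ≤ 8 := by
    by_contra hc
    have h9 : 2 ^ 9 ≤ 2 ^ Δ := Nat.pow_le_pow_right (by norm_num) (by omega)
    have h1 : (n + (M + Δ)) * D' ≤ (n + (M + Δ)) * 127 := Nat.mul_le_mul_left _ hD'
    have h2 : 2 ^ Δ * y ≤ (n + (M + Δ)) * 127 + 2 := by omega
    have h3 : 512 * y ≤ 2 ^ Δ * y := Nat.mul_le_mul_right _ (by omega)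
    have h4 : 2 ^ Δ * 254 ≤ 2 ^ Δ * y := Nat.mul_le_mul_left _ (by omega)
    omega
  by_contra hc
  have ha : (D' : ℤ) - 2 ^ Δ * D ≠ 0 := by
    intro h
    rcases Nat.eq_zero_or_pos Δ with h0 | h0
    · subst h0
      simp at h
      exact hc ⟨rfl, by omega⟩
    · obtain ⟨δ, rfl⟩ := Nat.exists_eq_succ_of_ne_zero h0.ne'
      rw [Nat.succ_eq_add_one, pow_succ] at h
      have : (D' : ℤ) = 2 * (2 ^ δ * D) := by linarith
      omega
  have hK : 2 ^ Δ ≤ 2 ^ 8 := Nat.pow_le_pow_right (by norm_num) hΔ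
  refine inj_core n D D' S S' M Δ (2 ^ Δ) y (by exact_mod_cast Nat.one_le_two_pow)
    (by exact_mod_cast hK) (by exact_mod_cast hD1) (by exact_mod_cast hD) (by exact_mod_cast hD1')
    (by exact_mod_cast hD') (by positivity) (by exact_mod_cast hS) (by positivity)
    (by exact_mod_cast hS') (by positivity) (by positivity) (by exact_mod_cast hΔ)
    (by positivity) (by exact_mod_cast e1) ?_ (by exact_mod_cast hy) ha
  have : (n + (M + Δ)) * D' + 2 = 2 ^ Δ * y + S' := e2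
  rw [← add_assoc] at this
  exact_mod_cast this

end Pool.Agent.K6.H23.EG
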