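import Pool.Agent.K6.H23.EG.Basic
import Pool.Prelude.Def_F_bd18904e

set_option autoImplicit false

namespace Pool.Agent.K6.H23.EG

open Finset N331b93cf

theorem f_pos {k : ℕ} (hk : 1 ≤ k) : (0 : ℚ) < (k : ℚ) / 2 ^ k := by
  have : (0 : ℚ) < k := by exact_mod_cast hk
  positivity

theorem f_succ {n : ℕ} (hn : 1 ≤ n) : ((n + 1 : ℕ) : ℚ) / 2 ^ (n + 1) ≤ (n : ℚ) / 2 ^ n := by
  have h : (1 : ℚ) ≤ n := by exact_mod_cast hn
  rw [div_le_div_iff₀ (by positivity) (by positivity), pow_succ]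
  push_cast
  have : (0 : ℚ) < 2 ^ n := by positivity
  nlinarith

theorem f_succ_lt {n : ℕ} (hn : 2 ≤ n) : ((n + 1 : ℕ) : ℚ) / 2 ^ (n + 1) < (n : ℚ) / 2 ^ n := by
  have h : (2 : ℚ) ≤ n := by exact_mod_cast hn
  rw [div_lt_div_iff₀ (by positivity) (by positivity), pow_succ]
  push_cast
  have : (0 : ℚ) < 2 ^ n := by positivity
  nlinarith

theorem f_anti {a n : ℕ} (ha : 1 ≤ a) (han : a ≤ n) : (n : ℚ) / 2 ^ n ≤ (a : ℚ) / 2 ^ a := by
  induction n, han using Nat.le_induction with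
  | base => exact le_rfl
  | succ n hn ih => exact (f_succ (ha.trans hn)).trans ih

theorem f_lt {n k : ℕ} (hn : 2 ≤ n) (hk : n < k) : (k : ℚ) / 2 ^ k < (n : ℚ) / 2 ^ n :=
  lt_of_le_of_lt (f_anti (by omega) hk) (f_succ_lt hn)

/-- a finite set of indices gives property E -/
theorem prop_of_finset {n : ℕ} (s : Finset ℕ) (hs : 2 ≤ s.card) (hs1 : ∀ k ∈ s, 1 ≤ k)
    (h : (n : ℚ) / 2 ^ n = ∑ k ∈ s, (k : ℚ) / 2 ^ k) : Erdos261Prop n := by
  refine ⟨s.card, hs, s.orderEmbOfFin rfl, (s.orderEmbOfFin rfl).injective, ?_, ?_⟩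
  · intro i
    exact hs1 _ (s.orderEmbOfFin_mem rfl i)
  · rw [h]
    conv_lhs => rw [← Finset.map_orderEmbOfFin_univ s rfl, Finset.sum_map]
    rfl

theorem prop_of_eq {n M : ℕ} (E : Finset ℕ) (hn : 2 ≤ n) (hE : ∀ e ∈ E, 1 ≤ e ∧ e < M)
    (h : (n + M) * (1 + ∑ e ∈ E, 2 ^ e) + 2 = 2 ^ (M + 1) + ∑ e ∈ E, e * 2 ^ e) :
    Erdos261Prop n := by
  have h1 := (equation_iff n M E hE).2 h
  set s := Ioc n (n + M) \ E.image (fun e => n + M - e) with hs
  have hgt : ∀ k ∈ s, n < k := fun k hk => by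
    rw [hs, Finset.mem_sdiff, Finset.mem_Ioc] at hk; exact hk.1.1
  refine prop_of_finset s ?_ (fun k hk => by have := hgt k hk; omega) h1
  by_contra hc
  have hf : (0 : ℚ) < (n : ℚ) / 2 ^ n := f_pos (by omega)
  rcases Nat.lt_or_ge s.card 1 with h0 | h0
  · have : s = ∅ := Finset.card_eq_zero.1 (by omega)
    rw [this, Finset.sum_empty] at h1
    exact hf.ne' h1
  · obtain ⟨k, hk⟩ := Finset.card_eq_one.1 (show s.card = 1 by omega)
    rw [hk, Finset.sum_singleton] at h1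
    have := f_lt hn (hgt k (by rw [hk]; exact Finset.mem_singleton_self k))
    exact this.ne' h1

theorem eq_of_prop {n : ℕ} (hn : 1 ≤ n) (h : Erdos261Prop n) :
    ∃ (M : ℕ) (E : Finset ℕ), (∀ e ∈ E, 1 ≤ e ∧ e < M) ∧
      (n + M) * (1 + ∑ e ∈ E, 2 ^ e) + 2 = 2 ^ (M + 1) + ∑ e ∈ E, e * 2 ^ e := by
  obtain ⟨t, ht, a, ha, ha1, hsum⟩ := h
  set s := Finset.univ.image a with hs
  have hcard : s.card = t := by
    rw [hs, Finset.card_image_of_injective _ ha, Finset.card_univ, Fintype.card_fin]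
  have hs1 : ∀ k ∈ s, 1 ≤ k := by
    intro k hk
    rw [hs, Finset.mem_image] at hk
    obtain ⟨i, -, rfl⟩ := hk
    exact ha1 i
  have hsum' : (n : ℚ) / 2 ^ n = ∑ k ∈ s, (k : ℚ) / 2 ^ k := by
    rw [hs, Finset.sum_image (fun x _ y _ hxy => ha hxy)]
    exact hsum
  have hgt : ∀ k ∈ s, n < k := by
    intro k hk
    by_contra hc
    have h1 : (n : ℚ) / 2 ^ n ≤ (k : ℚ) / 2 ^ k := f_anti (hs1 k hk) (by omega)
    have h2 := Finset.add_sum_erase s (fun k : ℕ => (k : ℚ) / 2 ^ k) hk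
    have h3 : (0 : ℚ) < ∑ x ∈ s.erase k, (x : ℚ) / 2 ^ x := by
      refine Finset.sum_pos (fun x hx => f_pos (hs1 x (Finset.mem_of_mem_erase hx))) ?_
      rw [← Finset.card_pos, Finset.card_erase_of_mem hk]
      omega
    linarith
  have hne : s.Nonempty := by
    rw [← Finset.card_pos]; omega
  set m := s.max' hne with hm
  have hms : m ∈ s := s.max'_mem hne
  have hnm := hgt m hms
  have hle : ∀ k ∈ s, k ≤ m := fun k hk => s.le_max' k hk
  refine ⟨m - n, (Ioc n m \ s).image (fun k => m - k), ?_, ?_⟩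
  · intro e he
    rw [Finset.mem_image] at he
    obtain ⟨k, hk, rfl⟩ := he
    rw [Finset.mem_sdiff, Finset.mem_Ioc] at hk
    have : k ≠ m := fun h => hk.2 (h ▸ hms)
    omega
  · have hE : ∀ e ∈ (Ioc n m \ s).image (fun k => m - k), 1 ≤ e ∧ e < m - n := by
      intro e he
      rw [Finset.mem_image] at he
      obtain ⟨k, hk, rfl⟩ := he
      rw [Finset.mem_sdiff, Finset.mem_Ioc] at hk
      have : k ≠ m := fun h => hk.2 (h ▸ hms)
      omega
    refine (equation_iff n (m - n) _ hE).1 ?_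
    have hset : Ioc n (n + (m - n)) \ ((Ioc n m \ s).image (fun k => m - k)).image
        (fun e => n + (m - n) - e) = s := by
      ext k
      simp only [Finset.mem_sdiff, Finset.mem_Ioc, Finset.mem_image, not_exists, not_and]
      constructor
      · rintro ⟨⟨h1, h2⟩, h3⟩
        by_contra hk
        refine h3 (m - k) ⟨k, ⟨⟨h1, by omega⟩, hk⟩, rfl⟩ (by omega)
      · intro hk
        refine ⟨⟨hgt k hk, by have := hle k hk; omega⟩, ?_⟩
        rintro e ⟨x, ⟨⟨hx1, hx2⟩, hx3⟩, rfl⟩ hx4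
        have : x = k := by omega
        exact hx3 (this ▸ hk)
    rw [hset]
    exact hsum'

end Pool.Agent.K6.H23.EG
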